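import Pool.Agent.R721.SC.Main

/-!
Every finite soluble permutation group has a 3-colouring whose colour-preserving subgroup is a
2-group.
-/

set_option autoImplicit false

namespace Pool.Agent.Results.MP_2fb0b3_al.ThreeColours

/-- The colour-preserving subgroup `G_γ` of a permutation group `G` on `Ω`: the elements of `G`
mapping each colour class of `γ` to itself. -/
def colourPreserving {Ω : Type} (G : Subgroup (Equiv.Perm Ω)) (γ : Ω → Fin 3) :
    Subgroup (Equiv.Perm Ω) where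
  carrier := {g | g ∈ G ∧ ∀ ω, γ (g ω) = γ ω}
  mul_mem' := by
    rintro a b ⟨ha, ha'⟩ ⟨hb, hb'⟩
    refine ⟨G.mul_mem ha hb, fun ω => ?_⟩
    rw [Equiv.Perm.mul_apply, ha', hb']
  one_mem' := ⟨G.one_mem, fun _ => rfl⟩
  inv_mem' := by
    rintro a ⟨ha, ha'⟩
    refine ⟨G.inv_mem ha, fun ω => ?_⟩
    have h1 := ha' (a⁻¹ ω)
    have h2 : a (a⁻¹ ω) = ω := a.apply_symm_apply ω
    rw [h2] at h1
    exact h1.symm

/-- Every soluble permutation group on a finite set has a 3-colouring such that the order of the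
colour-preserving subgroup is a power of two. -/
theorem result : ∀ (Ω : Type) [Finite Ω] (G : Subgroup (Equiv.Perm Ω)), Group.IsSolvable G →
    ∃ γ : Ω → Fin 3, ∃ n : ℕ, Nat.card (colourPreserving G γ) = 2 ^ n := by
  intro Ω _ G hG
  obtain ⟨γ, hγ⟩ := Pool.Agent.R721.SC.action (G := G) (X := Ω)
  refine ⟨γ, ?_⟩
  have : Fact (Nat.Prime 2) := ⟨Nat.prime_two⟩
  rw [← IsPGroup.iff_card]
  rintro ⟨g, hg, hgγ⟩
  obtain ⟨k, hk⟩ := hγ ⟨g, hg⟩ hgγ
  refine ⟨k, Subtype.ext (Equiv.ext fun ω => ?_)⟩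
  exact hk ω

end Pool.Agent.Results.MP_2fb0b3_al.ThreeColours
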